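import Mathlib
import Pool.Agent.Lib.Pe86704.Defs
import Pool.Agent.Lib.Pe86704.Main

set_option autoImplicit false

namespace Pool.Agent.Results.MP_e86704_lc.AllRealizable

open Cardinal Pool.Agent.Lib.Pe86704

universe u

/-- For every bounded set `X` of ordinals `x` with `ℵ_ x` regular, the realizable sets are exactly
all subsets of `X × X`. -/
theorem result : ∀ (X : Set Ordinal.{u}), BddAbove X → (∀ x ∈ X, (ℵ_ x).IsRegular) →
    ∀ C : Set (Ordinal.{u} × Ordinal.{u}), Realizable X C ↔ C ⊆ X ×ˢ X := by
  intro X hX hreg C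
  constructor
  · rintro ⟨T, _, -, -, -, h⟩
    rw [← h]
    exact Set.inter_subset_right
  · exact all_realizable X hX hreg C

end Pool.Agent.Results.MP_e86704_lc.AllRealizable
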